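import Pool.Agent.P.MP_54dcdd_nt.PartB

/-!
Partition numbers close to powers with a large exponent. Here
`p n = Fintype.card (Nat.Partition n)`. For `θ < 1` and `ε > 0` there is `K` such that at most
`C X ^ (1 / 2 + ε)` of the `n ≤ X` have `p n` within `d + (p n) ^ θ` of a power `m ^ k` with
`k ≥ K`.
-/

namespace Pool.Agent.Results.MP_54dcdd_nt.LargeExponent

theorem result : ∀ θ : ℝ, θ < 1 → ∀ ε : ℝ, 0 < ε →
    ∃ K : ℕ, ∀ d : ℝ, ∃ C : ℝ, ∀ X : ℝ, 1 ≤ X →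
      (Set.ncard {n : ℕ | (n : ℝ) ≤ X ∧ ∃ k : ℕ, K ≤ k ∧ ∃ m : ℤ,
        |(Fintype.card (Nat.Partition n) : ℝ) - (m : ℝ) ^ k| ≤
          d + (Fintype.card (Nat.Partition n) : ℝ) ^ θ} : ℝ) ≤ C * X ^ (1 / 2 + ε) :=
  fun _ hθ _ hε => Pool.Agent.PPow.part_b hθ hε

end Pool.Agent.Results.MP_54dcdd_nt.LargeExponent
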