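import Pool.Agent.P.MP_54dcdd_nt.PartA

/-!
Partition numbers are rarely close to perfect powers. Here `p n = Fintype.card (Nat.Partition n)`.
For `K ≥ 2` and `θ < 1 - 1 / K`, at most `C X ^ (1 - η)` of the `n ≤ X` have `p n` within
`d + (p n) ^ θ` of a power `m ^ k` with `k ≥ K`.
-/

namespace Pool.Agent.Results.MP_54dcdd_nt.PowerSaving

theorem result : ∀ K : ℕ, 2 ≤ K → ∀ θ : ℝ, θ < 1 - 1 / (K : ℝ) →
    ∃ η : ℝ, 0 < η ∧ ∀ d : ℝ, ∃ C : ℝ, ∀ X : ℝ, 1 ≤ X →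
      (Set.ncard {n : ℕ | (n : ℝ) ≤ X ∧ ∃ k : ℕ, K ≤ k ∧ ∃ m : ℤ,
        |(Fintype.card (Nat.Partition n) : ℝ) - (m : ℝ) ^ k| ≤
          d + (Fintype.card (Nat.Partition n) : ℝ) ^ θ} : ℝ) ≤ C * X ^ (1 - η) :=
  fun _ hK _ hθ => Pool.Agent.PPow.part_a hK hθ

end Pool.Agent.Results.MP_54dcdd_nt.PowerSaving
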